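import Mathlib

namespace Pool.Agent.Results.MP_cec948_nt.Full

open Finset

/-- `u ≡ v (mod p^m)` for rationals: `(u - v) / p^m` has denominator prime to `p` -/
def cong (p m : ℕ) (u v : ℚ) : Prop := ¬ p ∣ ((u - v) / (p : ℚ) ^ m).den

instance (p m : ℕ) (u v : ℚ) : Decidable (cong p m u v) := by unfold cong; infer_instance

/-- the generalized binomial coefficient `a (a-1) ⋯ (a-k+1) / k!` -/
def bin (a : ℚ) (k : ℕ) : ℚ := (∏ i ∈ range k, (a - i)) / k.factorial

theorem result : ¬ ∀ p : ℕ, p.Prime → 5 ≤ p → p % 4 = 1 →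
    ∃ x y : ℤ, Odd x ∧ (p : ℤ) = x ^ 2 + y ^ 2 ∧
      cong p 2 (∑ k ∈ range p, bin (-1 / 4) k * bin (-1 / 2) k / (-3) ^ k) (2 * x - p / (2 * x)) ∧
      cong p 2 ((-1) ^ ((p - 1) / 4) * ∑ k ∈ range p, bin (-1 / 4) k * bin (-1 / 2) k / 81 ^ k)
        (2 * x - p / (2 * x)) := by
  intro h
  obtain ⟨x, y, hx, hp, h1, h2⟩ := h 13 (by norm_num) (by norm_num) (by norm_num)
  have b1 : -4 < x := by push_cast at hp; nlinarith
  have b2 : x < 4 := by push_cast at hp; nlinarith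
  revert h1 h2
  interval_cases x <;> decide +kernel

end Pool.Agent.Results.MP_cec948_nt.Full
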